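import Pool.Agent.H677.HD.Class
import Pool.Agent.H677.SC.WL

/-!
# Graph isomorphism for graphs with a bounded number of Weisfeiler-Leman colours

For every `d ≥ 2` there is a number `r` such that graph isomorphism has, for every `ε > 0`, a
polynomial-time reduction to a class of connected graphs on which the `d`-dimensional
Weisfeiler-Leman method finds at most `r` colours of `d`-tuples. Any two members of the class with
the same number `n` of vertices are distinguished neither by this method nor, for any
`k ≤ n ^ (1 / (d + 1) - ε)`, by the `k`-dimensional Weisfeiler-Leman method, the `k`-dimensional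
invertible-map test over all fields of characteristic other than two, the polynomial calculus of
degree `k` over such fields, and the Positivstellensatz calculus (sums of squares) of degree `k`.

For `d = 2` the number is `r = 6` (coherent rank at most six): the members of the class are graphs of
symmetric association schemes with five classes, the intersection numbers of which are prescribed
(they depend only on the number of vertices).

The vertices of the graph for a set `b` of `K`-subsets of a set `P` of `m` points are the pairs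
`(T, α)` where `T` is a `K`-subset of `P` and `α` is a labelling of the `(K - 1)`-subsets of `T` by
`0` and `1`, with sum `1` if `T ∈ b` and with sum `0` otherwise.  Two vertices `(T, α)`, `(T', α')`
are adjacent if `T ∩ T'` is a `(K - 1)`-subset to which `α` and `α'` give the same label.  Here
`K = d + 1`.

Let `K = 3`.  The relations of the scheme are: equality; adjacency; the same `T`; `T ∩ T'` is a
`2`-subset with different labels; `|T ∩ T'| = 1`; `T ∩ T' = ∅`.  For every `b` this is an association
scheme, with the same intersection numbers: given two base points, for any two sets `b`, `b'` there is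
a bijection of all points that preserves the relations to the base points, since a correction of the
labels on two of the `2`-subsets of `T` can be completed on the third.  In the same way `K - 1` base
points are possible in general.  On the other hand, if `m` is large, then `b` can be recovered from
the graph up to the sets of the form
`{T : an odd number of the (K - 1)-subsets of T belong to a given set}`.

The set `b` describes a graph `B` which is a bundle of Cai-Fürer-Immerman graphs. The bundles for all
graphs with the same number of vertices are related by a family of bijections that is indexed by the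
elements of an abelian group and consists of local isomorphisms, and so are the graphs of the
labelled `K`-subsets.
-/

set_option autoImplicit false

namespace Pool.Agent.Results.MP_128e7d_lc.AssociationSchemes

open Pool.Agent.NPC Pool.Agent.NPC.UB129 Pool.Agent.NPC.R671 Pool.Agent.H677.SC
  Pool.Agent.H677.JK Pool.Agent.NPC.SC677 Pool.Agent.W185.SRG Pool.Agent.NPC.HD677
  Pool.Agent.NPC.GW677 Pool.Agent.H677.GW Pool.Agent.H677.HD

/-- Graph isomorphism on the class `𝒞` is as hard as in general. -/
def AsHardOn (𝒞 : (n : ℕ) → SimpleGraph (Fin n) → Prop) : Prop :=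
  -- a polynomial-time reduction of graph isomorphism to the class `𝒞`
  (∃ (N : ∀ n, SimpleGraph (Fin n) → ℕ)
      (T : ∀ n (G : SimpleGraph (Fin n)), SimpleGraph (Fin (N n G)))
      (F : List Bool → List Bool), PolyTime F ∧
    (∀ n G, F (bits (adjMatrix G)) = bits (adjMatrix (T n G))) ∧
    (∀ n G, 𝒞 _ (T n G)) ∧
    ∀ n m G H, Nonempty (T n G ≃g T m H) ↔ Nonempty (G ≃g H)) ∧
  -- isomorphism on the class is decidable in polynomial time iff GRAPH ISOMORPHISM is
  ((∃ A : List Bool → List Bool, PolyTime A ∧
      ∀ (n m : ℕ) (G : SimpleGraph (Fin n)) (H : SimpleGraph (Fin m)), 𝒞 n G → 𝒞 m H →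
        (A (bits (adjMatrix G, adjMatrix H)) = [true] ↔ Nonempty (G ≃g H))) ↔ InP GI) ∧
  -- isomorphism on the class is NP-hard iff GRAPH ISOMORPHISM is
  ((∀ L : Set (List Bool), InNP L → ∃ g : List Bool → List Bool, PolyTime g ∧
      ∀ x, ∃ (n m : ℕ) (G : SimpleGraph (Fin n)) (H : SimpleGraph (Fin m)),
        𝒞 n G ∧ 𝒞 m H ∧ g x = bits (adjMatrix G, adjMatrix H) ∧
        (x ∈ L ↔ Nonempty (G ≃g H))) ↔ NPHard GI)

/-- The colouring `c` of the pairs is a symmetric association scheme with five classes, that is, of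
rank six, the relations of which are `R₀` (equality), `R₁`, …, `R₅`; the number of the points `z` with
`(x, z) ∈ R_i` and `(z, y) ∈ R_j` is `p i j k` for all `(x, y) ∈ R_k`. -/
structure IsScheme (p : Fin 6 → Fin 6 → Fin 6 → ℕ) {n : ℕ} (c : Fin n → Fin n → Fin 6) :
    Prop where
  occurs : ∀ k, ∃ x y, c x y = k
  diag : ∀ x y, c x y = 0 ↔ x = y
  symm : ∀ x y, c y x = c x y
  number : ∀ i j x y, (Finset.univ.filter fun z => c x z = i ∧ c z y = j).card = p i j (c x y)

/-- The graphs, with `4 * m.choose 3` vertices for some `m`, that are the first class of a symmetric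
association scheme with five classes and with the intersection numbers `p m`. -/
def SchemeGraph (p : ℕ → Fin 6 → Fin 6 → Fin 6 → ℕ) (n : ℕ) (G : SimpleGraph (Fin n)) : Prop :=
  ∃ m : ℕ, n = 4 * m.choose 3 ∧ ∃ c : Fin n → Fin n → Fin 6,
    IsScheme (p m) c ∧ ∀ x y, G.Adj x y ↔ c x y = 1

theorem choose_inj {K m m' : ℕ} (hm : K ≤ m) (hm' : K ≤ m') (hK : 1 ≤ K)
    (h : m.choose K = m'.choose K) : m = m' := by
  have key : ∀ {a c : ℕ}, K ≤ a → a < c → a.choose K < c.choose K := by
    intro a c ha hac
    obtain ⟨K, rfl⟩ : ∃ k, K = k + 1 := ⟨K - 1, by omega⟩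
    have h1 : (a + 1).choose (K + 1) = a.choose K + a.choose (K + 1) := Nat.choose_succ_succ a K
    have h2 : 0 < a.choose K := Nat.choose_pos (by omega)
    have h3 : (a + 1).choose (K + 1) ≤ c.choose (K + 1) := Nat.choose_le_choose _ hac
    omega
  rcases lt_trichotomy m m' with h1 | h1 | h1
  · exact absurd h (key hm h1).ne
  · exact h1
  · exact absurd h (key hm' h1).ne'

/-- The graphs of the sets `b` of `K`-subsets. -/
def Labelled (K n : ℕ) (G : SimpleGraph (Fin n)) : Prop :=
  ∃ (m : ℕ) (b : Finset (Fin m) → Prop), 2 * K ≤ m ∧ Nonempty (G ≃g sg K b)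

theorem labelled_connected {K n : ℕ} (hK : 3 ≤ K) {G : SimpleGraph (Fin n)}
    (h : Labelled K n G) : G.Connected := by
  obtain ⟨m, b, hm, ⟨φ⟩⟩ := h
  exact φ.connected_iff.2 (sg_connected hK (by rw [Fintype.card_fin]; omega))

theorem labelled_colours {K n d : ℕ} (hd : d < K) {G : SimpleGraph (Fin n)}
    (h : Labelled K n G) : numColours d G ≤ Fintype.card (Data d K) := by
  obtain ⟨m, b, hm, ⟨φ⟩⟩ := h
  rw [numColours_iso φ]
  exact numColours_sg hd b

theorem labelled_equiv {K n d : ℕ} (hK : 3 ≤ K) (hd : d < K) {G H : SimpleGraph (Fin n)}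
    (hG : Labelled K n G) (hH : Labelled K n H) : WLEquivalent d G H := by
  obtain ⟨m, b, hm, ⟨φ⟩⟩ := hG
  obtain ⟨m', b', hm', ⟨χ⟩⟩ := hH
  have h1 := Nat.card_congr φ.toEquiv
  have h2 := Nat.card_congr χ.toEquiv
  rw [card_pt (by omega), Nat.card_eq_fintype_card, Fintype.card_fin, Fintype.card_fin] at h1 h2
  have h3 : m = m' := choose_inj (by omega) (by omega) (by omega)
    (Nat.eq_of_mul_eq_mul_left (by positivity) (h1.symm.trans h2))
  subst h3
  exact wlEquivalent_iso φ χ (wlEquivalent_sg hd b b')

theorem labelled_scheme {n : ℕ} {G : SimpleGraph (Fin n)} (h : Labelled 3 n G) :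
    SchemeGraph pnum n G := by
  classical
  obtain ⟨m, b, hm, ⟨φ⟩⟩ := h
  refine ⟨m, ?_, fun x y => cl (φ x) (φ y), ⟨?_, ?_, ?_, ?_⟩, ?_⟩
  · have h1 := Nat.card_congr φ.toEquiv
    rw [card_pt (by omega), Nat.card_eq_fintype_card, Fintype.card_fin, Fintype.card_fin] at h1
    exact h1
  · intro k
    obtain ⟨x, y, h⟩ := cl_surj (P := Fin m) (by rw [Fintype.card_fin]; omega) b k
    refine ⟨φ.symm x, φ.symm y, ?_⟩
    rw [RelIso.apply_symm_apply, RelIso.apply_symm_apply]
    exact h
  · intro x y
    rw [cl_zero, φ.injective.eq_iff]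
  · intro x y
    exact cl_comm _ _
  · intro i j x y
    rw [← pnum_eq, ← Fintype.card_subtype, ← Nat.card_eq_fintype_card]
    exact Nat.card_congr (φ.toEquiv.subtypeEquiv fun z => Iff.rfl)
  · intro x y
    rw [cl_one, φ.map_adj_iff]

theorem labelled_colours_two {n : ℕ} {G : SimpleGraph (Fin n)} (h : Labelled 3 n G) :
    numColours 2 G ≤ 6 := by
  obtain ⟨m, b, hm, ⟨φ⟩⟩ := h
  rw [numColours_iso φ]
  exact numColours_sg_two b

theorem labelled_TC (K n : ℕ) (G : SimpleGraph (Fin n)) :
    Labelled K _ (TC K n G) := by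
  refine ⟨n + ex K n, bs K G, ?_, ⟨TCiso K n G⟩⟩
  unfold ex
  exact (Nat.le_add_left (2 * K) (n + 16 ^ K)).trans (Nat.le_add_left _ n)

theorem labelled_card {K s n : ℕ} (hK : 1 ≤ K) {G : SimpleGraph (Fin s)}
    {H : SimpleGraph (Fin n)} (h : Nonempty (H ≃g TS K s G)) :
    n = 2 ^ (K - 1) * (pts K s).choose K := by
  obtain ⟨φ⟩ := h
  have h1 := Nat.card_congr (φ.trans (TCiso K _ (cones G 3))).toEquiv
  rw [card_pt hK, Nat.card_eq_fintype_card, Fintype.card_fin, Fintype.card_fin] at h1
  exact h1

/-- The graphs of the bundles. -/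
def Bundled (K C n : ℕ) (G : SimpleGraph (Fin n)) : Prop :=
  ∃ (n₀ : ℕ) (G₀ : SimpleGraph (Fin n₀)), Nonempty (G ≃g TF K C n₀ G₀)

theorem Bundled.labelled {K C n : ℕ} {G : SimpleGraph (Fin n)} (h : Bundled K C n G) :
    Labelled K n G := by
  obtain ⟨n₀, G₀, ⟨φ⟩⟩ := h
  obtain ⟨m, b, hm, ⟨χ⟩⟩ := labelled_TC K _ (cones (TT (mm C) (XX C) n₀ G₀) 3)
  exact ⟨m, b, hm, ⟨φ.trans χ⟩⟩

theorem Bundled.indist {K C : ℕ} {ε : ℝ} (hε : 0 < ε) (hK : 3 ≤ K)
    (hC : ((186624 * EE K : ℕ) : ℝ) * ((C : ℝ) + 3) ≤ ((3 : ℝ) ^ (ε / 2)) ^ (C + 3))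
    (hC' : 186624 * EE K ≤ C) {n : ℕ} {G H : SimpleGraph (Fin n)} (hG : Bundled K C n G)
    (hH : Bundled K C n H) (k : ℕ) (hk : (k : ℝ) ≤ (n : ℝ) ^ (1 / (K : ℝ) - ε)) :
    Indistinguishable k G H := by
  obtain ⟨n₀, G₀, ⟨φ⟩⟩ := hG
  obtain ⟨n₁, H₀, ⟨ψ⟩⟩ := hH
  have h1 := labelled_card (by omega) (G := TT (mm C) (XX C) n₀ G₀) ⟨φ⟩
  have h2 := labelled_card (by omega) (G := TT (mm C) (XX C) n₁ H₀) ⟨ψ⟩
  have hp : ∀ s, K ≤ pts K s := by
    intro s
    unfold pts ex
    generalize 16 ^ K = c
    omega
  have h3 : pts K (size (mm C) n₀) = pts K (size (mm C) n₁) :=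
    choose_inj (hp _) (hp _) (by omega) (Nat.eq_of_mul_eq_mul_left (by positivity)
      (h1.symm.trans h2))
  have h4 : size (mm C) n₀ = size (mm C) n₁ := by
    unfold pts ex at h3
    generalize 16 ^ K = c at h3
    omega
  have h5 : n₀ = n₁ := size_inj (mm_mono C) h4
  subst h5
  rw [h1] at hk
  exact indist_TF hK G₀ H₀ φ ψ (param' hε (by omega) hC hC' n₀ k hk)

/-- **Graph isomorphism is as hard as for the connected graphs of symmetric association schemes with
five classes and with prescribed intersection numbers, even if any two of the graphs with the same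
number `n` of vertices are not distinguished by the Weisfeiler-Leman method, by invertible maps, by
the polynomial calculus and by sums of squares of dimension `n ^ (1 / 3 - ε)`; more generally, for
every `d ≥ 2` it is as hard as for a class of connected graphs with a bounded number of
`d`-dimensional Weisfeiler-Leman colours, on which this method and all these methods of dimension
`n ^ (1 / (d + 1) - ε)` see only the number of vertices.** -/
theorem result : ∃ p : ℕ → Fin 6 → Fin 6 → Fin 6 → ℕ,
    ∀ d : ℕ, 2 ≤ d → ∃ r : ℕ, (d = 2 → r = 6) ∧ ∀ ε : ℝ, 0 < ε →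
      ∃ 𝒞 : (n : ℕ) → SimpleGraph (Fin n) → Prop,
      -- `𝒞` is closed under isomorphism
      (∀ (n m : ℕ) (G : SimpleGraph (Fin n)) (H : SimpleGraph (Fin m)),
        𝒞 n G → Nonempty (G ≃g H) → 𝒞 m H) ∧
      -- its members are connected and have at most `r` stable colours of `d`-tuples
      (∀ (n : ℕ) (G : SimpleGraph (Fin n)), 𝒞 n G → G.Connected ∧ numColours d G ≤ r) ∧
      -- for `d = 2` they are the graphs of schemes with five classes
      (d = 2 → ∀ (n : ℕ) (G : SimpleGraph (Fin n)), 𝒞 n G → SchemeGraph p n G) ∧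
      -- members with the same number of vertices are not distinguished
      (∀ (n : ℕ) (G H : SimpleGraph (Fin n)), 𝒞 n G → 𝒞 n H → WLEquivalent d G H ∧
        ∀ k : ℕ, (k : ℝ) ≤ (n : ℝ) ^ (1 / ((d : ℝ) + 1) - ε) → Indistinguishable k G H) ∧
      -- graph isomorphism on `𝒞` is as hard as in general
      AsHardOn 𝒞 := by
  refine ⟨pnum, fun d hd2 => ?_⟩
  have hK : 3 ≤ d + 1 := by omega
  have hd : d < d + 1 := Nat.lt_succ_self d
  refine ⟨if d = 2 then 6 else Fintype.card (Data d (d + 1)), fun h => if_pos h, fun ε hε => ?_⟩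
  obtain ⟨C, hC, hC'⟩ := exists_C' ((3 : ℝ) ^ (ε / 2))
    (Real.one_lt_rpow (by norm_num) (half_pos hε)) (186624 * EE (d + 1))
  refine ⟨Bundled (d + 1) C, ?_, ?_, ?_, ?_, ?_⟩
  · rintro n m G H ⟨n₀, G₀, ⟨φ⟩⟩ ⟨ψ⟩
    exact ⟨n₀, G₀, ⟨ψ.symm.trans φ⟩⟩
  · refine fun n G h => ⟨labelled_connected hK h.labelled, ?_⟩
    split_ifs with h2
    · subst h2
      exact labelled_colours_two h.labelled
    · exact labelled_colours hd h.labelled
  · intro h2 n G h
    subst h2
    exact labelled_scheme h.labelled
  · refine fun n G H hG hH => ⟨labelled_equiv hK hd hG.labelled hH.labelled, fun k hk => ?_⟩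
    refine hG.indist hε hK hC hC' hH k ?_
    rw [Nat.cast_add, Nat.cast_one]
    exact hk
  · exact FE677.complete (N := fun n G => numC (d + 1) (size (mm C) n + 3)
        (cones (TT (mm C) (XX C) n G) 3)) (poly_redF (d + 1) C)
      (redF_adjMatrix (d + 1) C) (fun n n' G H => TF_iff hK C n n' G H) (Bundled (d + 1) C)
      fun n G => ⟨n, G, ⟨RelIso.refl _⟩⟩

end Pool.Agent.Results.MP_128e7d_lc.AssociationSchemes
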