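import Pool.Agent.H677.CL.Red
import Pool.Agent.H677.CL.Mem

/-!
# Graph isomorphism is not NP-complete under reductions definable in counting logic

A reduction which is definable in a logic maps a graph to the pair of graphs which two fixed
interpretations (`Interp`) define in it: the vertices of the output are definable classes of
`d`-tuples of vertices (of `r` sorts), and adjacency is definable. We show that the problem
`FreeInvolutionProblem`, whether a graph has a fixed-point-free automorphism of order two (it is in
NP, and NP-complete by Lubiw 1981), has no such reduction to graph isomorphism if the formulas are
those of infinitary counting logic with finitely many variables. This logic contains fixed-point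
logic with counting (FPC). It is still true

* if the formulas of the reduction may also use (`Local`, the first layer; `p` is an arbitrary
  prime, `s` an arbitrary number) all linear-algebraic quantifiers over algebraically closed fields
  of characteristic different from `p` (in particular rank quantifiers), and quantifiers for all
  classes of structures in whose automorphism groups all elementary abelian `p`-subgroups have at
  most `p ^ s` elements;
* if, on top of these, graph isomorphism itself is used as an oracle (`Fml`, the second layer):
  negation, infinitary conjunction, quantification and isomorphism quantifiers may be nested. So
  there are no such Turing reductions either, as long as the answers of the oracle are not counted.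

The reductions are nonuniform and need not be computable, no order of the vertices is available
to them, and the number of sorts is fixed (a linearly ordered sort of numbers, as in some
definitions of FPC-interpretations, is not available for the vertices of the output).

Proof idea. Let `X` and `X'` be the two Cai-Fürer-Immerman graphs for the group `ℤ / p` over a
cubic expander, and let `A (x, y)` be the disjoint union of `x` cones over `X` and of `y` cones over
`X'`. It has a fixed-point-free involution if and only if `x` and `y` are even. The relations which
are definable in the first layer depend on `x + y` only, but isomorphism quantifiers see both `x`
and `y`. The number of embeddings of a fixed graph in an interpreted graph is a rational function of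
`x` and `y`; so, by Lovász's theorem and Hilbert's basis theorem, the truth of each sentence with
`k` variables is determined, for given `x + y`, by the zeros at `(x, y)` of finitely many
polynomials which depend only on `k` (this part of the argument is in the library, for first layers
without counting). A nonzero polynomial in two variables does not vanish at some pair of a point
`(x, y)` with even coordinates and the point `(x - 1, y + 1)` with odd coordinates.
-/

set_option autoImplicit false

namespace Pool.Agent.Results.MP_128e7d_lc.CountingLogicReductions

open Pool.Agent.H677.CL Pool.Agent.NPC Pool.Agent.NPC.CL677

/-- **Graph isomorphism is not NP-complete under reductions definable in counting logic.** The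
problem `FreeInvolutionProblem` is in NP. For all `k`, `s` and all primes `p` there are graphs `G`
and `H` with the same number of vertices such that `G` has a fixed-point-free automorphism of order
two and `H` has none, but they satisfy the same sentences of the second layer; and no pair `I`, `J`
of interpretations defined by formulas of the second layer reduces the problem to graph
isomorphism. -/
theorem result :
    InNPP FreeInvolutionProblem ∧
    ∀ p : ℕ, p.Prime → ∀ k s : ℕ,
      (∃ (V V' : Type) (_ : Fintype V) (_ : Fintype V') (G : SimpleGraph V) (H : SimpleGraph V'),
        Fintype.card V = Fintype.card V' ∧ FreeInvolution G ∧ ¬ FreeInvolution H ∧
        ∀ φ : Fml k p s 0, φ.Holds G Fin.elim0 ↔ φ.Holds H Fin.elim0) ∧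
      ∀ I J : Interp k p s, ¬ ∀ (V : Type) [Fintype V] (G : SimpleGraph V),
        (FreeInvolution G ↔ (I.out G).Iso (J.out G)) :=
  ⟨inNPP_free, fun p hp k s => ⟨exists_pair p hp k s, no_reduction p hp k s⟩⟩

end Pool.Agent.Results.MP_128e7d_lc.CountingLogicReductions
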