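import Pool.Agent.H677.GW.Param

/-!
# Graph isomorphism is as hard as on a class of pairwise indistinguishable graphs

For every `ε > 0` there is a class `𝒞` of graphs, closed under isomorphism, such that any two
members of `𝒞` with the same number `n` of vertices are not distinguished, for any `k ≤ n ^ (1 - ε)`,
by the `k`-dimensional Weisfeiler-Leman method, by the `k`-dimensional invertible-map test over all
fields of characteristic other than two, by the polynomial calculus of degree `k` over such fields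
and by the Positivstellensatz calculus (sums of squares) of degree `k`; so on `𝒞` these methods
yield no information besides the number of vertices. Nevertheless the isomorphism problem for `𝒞` is
as hard as for all graphs: there is a polynomial-time reduction of graph isomorphism to it, it is
solvable in polynomial time if and only if GRAPH ISOMORPHISM is in `P`, and NP-hard if and only if
GRAPH ISOMORPHISM is.
-/

set_option autoImplicit false

namespace Pool.Agent.Results.MP_128e7d_lc.IndistinguishableClass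

open Pool.Agent.NPC Pool.Agent.NPC.UB129 Pool.Agent.NPC.R671 Pool.Agent.H677.GW

/-- **Graph isomorphism is as hard as on a class of pairwise indistinguishable graphs.** -/
theorem result (ε : ℝ) (hε : 0 < ε) : ∃ 𝒞 : (n : ℕ) → SimpleGraph (Fin n) → Prop,
    -- `𝒞` is closed under isomorphism
    (∀ (n m : ℕ) (G : SimpleGraph (Fin n)) (H : SimpleGraph (Fin m)),
      𝒞 n G → Nonempty (G ≃g H) → 𝒞 m H) ∧
    -- members of `𝒞` with the same number of vertices are indistinguishable
    (∀ (n : ℕ) (G H : SimpleGraph (Fin n)), 𝒞 n G → 𝒞 n H →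
      ∀ k : ℕ, (k : ℝ) ≤ (n : ℝ) ^ (1 - ε) → Indistinguishable k G H) ∧
    -- there is a polynomial-time reduction of graph isomorphism to graph isomorphism on `𝒞`
    (∃ (N : ℕ → ℕ) (T : ∀ n, SimpleGraph (Fin n) → SimpleGraph (Fin (N n)))
        (F : List Bool → List Bool), PolyTime F ∧
      (∀ n G, F (bits (adjMatrix G)) = bits (adjMatrix (T n G))) ∧
      (∀ n G, 𝒞 _ (T n G)) ∧
      ∀ n m G H, Nonempty (T n G ≃g T m H) ↔ Nonempty (G ≃g H)) ∧
    -- isomorphism on `𝒞` is decidable in polynomial time if and only if GRAPH ISOMORPHISM is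
    ((∃ A : List Bool → List Bool, PolyTime A ∧
        ∀ (n m : ℕ) (G : SimpleGraph (Fin n)) (H : SimpleGraph (Fin m)),
          𝒞 n G → 𝒞 m H →
          (A (bits (adjMatrix G, adjMatrix H)) = [true] ↔ Nonempty (G ≃g H))) ↔ InP GI) ∧
    -- isomorphism on `𝒞` is NP-hard if and only if GRAPH ISOMORPHISM is
    ((∀ L : Set (List Bool), InNP L → ∃ g : List Bool → List Bool, PolyTime g ∧
        ∀ x, ∃ (n m : ℕ) (G : SimpleGraph (Fin n)) (H : SimpleGraph (Fin m)),
          𝒞 n G ∧ 𝒞 m H ∧ g x = bits (adjMatrix G, adjMatrix H) ∧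
          (x ∈ L ↔ Nonempty (G ≃g H))) ↔ NPHard GI) := by
  obtain ⟨C, hC⟩ := exists_C ((3 : ℝ) ^ (2 * ε)) (Real.one_lt_rpow (by norm_num) (by linarith))
  refine ⟨fun N G => ∃ (n : ℕ) (G₀ : SimpleGraph (Fin n)),
    Nonempty (G ≃g GW677.TT (mm C) (XX C) n G₀), ?_, ?_, ?_⟩
  · rintro n m G H ⟨n₀, G₀, ⟨φ⟩⟩ ⟨ψ⟩
    exact ⟨n₀, G₀, ⟨ψ.symm.trans φ⟩⟩
  · rintro N G H ⟨n, G₀, ⟨φ⟩⟩ ⟨n', H₀, ⟨ψ⟩⟩ k hk
    have h1 : N = GW677.size (mm C) n := by
      have := Fintype.card_congr φ.toEquiv
      simpa using this
    have h2 : N = GW677.size (mm C) n' := by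
      have := Fintype.card_congr ψ.toEquiv
      simpa using this
    have h3 : n = n' := GW677.size_inj (mm_mono C) (h1.symm.trans h2)
    subst h3
    rw [h1] at hk
    exact indist_Gs C n (φ.trans (TTiso' C n G₀)) (ψ.trans (TTiso' C n H₀))
      (param hε hC n k hk)
  · exact GW677.complete (mm_mono C) (GW677.upoly_mm C) (GW677.poly_adjXX C)
      (fun n c s t => adjXX_iff C n c s t) (fun n c u => XX_degree C n c u) (mm_gt C)
      (XX_not_iso C) (fun N G => ∃ (n : ℕ) (G₀ : SimpleGraph (Fin n)),
        Nonempty (G ≃g GW677.TT (mm C) (XX C) n G₀)) fun n G => ⟨n, G, ⟨RelIso.refl _⟩⟩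

end Pool.Agent.Results.MP_128e7d_lc.IndistinguishableClass
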