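import Pool.Agent.H677.HD.ClassJ

/-!
# Graph isomorphism is as hard as for indistinguishable graphs with the spectrum of `J(m,k)`

Let `k ≥ 3` be fixed. Graph isomorphism has a polynomial-time reduction to the isomorphism of
connected regular graphs which have the same characteristic polynomial as a Johnson graph `J(m,k)`,
and exactly `k + 1` distinct eigenvalues. So four distinct eigenvalues are enough, even if the
spectrum is completely prescribed. (Connected regular graphs with at most two distinct eigenvalues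
are the complete graphs, and those with three are the strongly regular graphs, for which no reduction
of graph isomorphism is known; the graphs with the spectrum of `J(m,1)` are the complete graphs, and
those with the spectrum of `J(m,2)` are the triangular graphs and three graphs with 28 vertices.)

Moreover, for every `ε > 0` the reduction can be chosen such that any two of its values with the same
number `N` of vertices are not distinguished, for any `l ≤ N ^ (1 / k - ε)`, by the `l`-dimensional
Weisfeiler-Leman method, by the `l`-dimensional invertible-map test over all fields of characteristic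
other than two, by the polynomial calculus of degree `l` over such fields, and by the
Positivstellensatz calculus (sums of squares) of degree `l`.

The reduction. Take `k - 1` points for every vertex (`k + 2` vertices that are adjacent to all
others are added first) and let `m` be the number of points. The vertices of the new graph are the
`k`-subsets of the set of points. A `k`-subset `T` is incident with the `k` sets `T \ {x}`, except if
it is contained in the set `S` of the `2 (k - 1)` points of two adjacent vertices, in which case it is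
incident with the `k` sets `(S \ T) ∪ {x}`; here `x ∈ T`. Two `k`-subsets are adjacent if they are
incident with a common `(k - 1)`-subset. The exchange does not alter the pairs of `(k - 1)`-subsets
that are incident with a common `k`-subset; so, if `N` is the incidence matrix, then `N Nᵀ` is the
same matrix as for the Johnson graph, and so is the spectrum of `Nᵀ N - k`, which is the adjacency
matrix. On the other hand the `(k - 1)`-subsets are the large cliques of the graph; they form a
Johnson graph `J(m,k-1)`, whose isomorphisms are known, so that the points, the sets `S` and the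
given graph can be recovered.

This is applied to bundles of Cai-Fürer-Immerman graphs. The bundles for all graphs with the same
number of vertices are related by a family of bijections that is indexed by the elements of an
abelian group and consists of local isomorphisms, and so are the new graphs.
-/

set_option autoImplicit false

namespace Pool.Agent.Results.MP_128e7d_lc.JohnsonSpectrum

open Pool.Agent.NPC Pool.Agent.NPC.UB129 Pool.Agent.NPC.R671 Pool.Agent.H677.FE
  Pool.Agent.H677.JK Pool.Agent.NPC.JK677 Pool.Agent.NPC.HD677 Pool.Agent.NPC.GW677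
  Pool.Agent.H677.GW Pool.Agent.H677.HD

/-- Graph isomorphism on the class `𝒞` is as hard as in general. -/
def AsHardOn (𝒞 : (n : ℕ) → SimpleGraph (Fin n) → Prop) : Prop :=
  -- a polynomial-time reduction of graph isomorphism to the class `𝒞`
  (∃ (N : ∀ n, SimpleGraph (Fin n) → ℕ)
      (T : ∀ n (G : SimpleGraph (Fin n)), SimpleGraph (Fin (N n G)))
      (F : List Bool → List Bool), PolyTime F ∧
    (∀ n G, F (bits (adjMatrix G)) = bits (adjMatrix (T n G))) ∧
    (∀ n G, 𝒞 _ (T n G)) ∧
    ∀ n m G H, Nonempty (T n G ≃g T m H) ↔ Nonempty (G ≃g H)) ∧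
  -- isomorphism on the class is decidable in polynomial time iff GRAPH ISOMORPHISM is
  ((∃ A : List Bool → List Bool, PolyTime A ∧
      ∀ (n m : ℕ) (G : SimpleGraph (Fin n)) (H : SimpleGraph (Fin m)), 𝒞 n G → 𝒞 m H →
        (A (bits (adjMatrix G, adjMatrix H)) = [true] ↔ Nonempty (G ≃g H))) ↔ InP GI) ∧
  -- isomorphism on the class is NP-hard iff GRAPH ISOMORPHISM is
  ((∀ L : Set (List Bool), InNP L → ∃ g : List Bool → List Bool, PolyTime g ∧
      ∀ x, ∃ (n m : ℕ) (G : SimpleGraph (Fin n)) (H : SimpleGraph (Fin m)),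
        𝒞 n G ∧ 𝒞 m H ∧ g x = bits (adjMatrix G, adjMatrix H) ∧
        (x ∈ L ↔ Nonempty (G ≃g H))) ↔ NPHard GI)

open Classical in
/-- The connected regular graphs that have exactly `k + 1` distinct eigenvalues, all of them
integers, and the same characteristic polynomial as a Johnson graph `J(m,k)`. -/
def JohnsonCospectral (k n : ℕ) (G : SimpleGraph (Fin n)) : Prop :=
  G.Connected ∧ (∃ d, G.IsRegularOfDegree d) ∧
    (∃ s : Finset ℤ, s.card = k + 1 ∧ ∀ θ : ℝ, IsEigenvalue G θ ↔ ∃ x ∈ s, θ = (x : ℝ)) ∧
    ∃ m : ℕ, n = m.choose k ∧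
      (G.adjMatrix ℤ).charpoly = ((johnson m k).adjMatrix ℤ).charpoly

theorem johnsonCospectral_TX {i n : ℕ} (hi : 1 ≤ i) (hn : 4 ≤ n) (G : SimpleGraph (Fin n)) :
    JohnsonCospectral (i + 1) _ (TX i n G) := by
  classical
  have φ := TXiso i n G
  have hcard : Fintype.card (Fin (n * i)) = n * i := Fintype.card_fin _
  have hni : 4 * i ≤ n * i := Nat.mul_le_mul_right i hn
  have hm : 2 * (i + 1) ≤ Fintype.card (Fin (n * i)) := by rw [hcard]; omega
  refine ⟨?_, ⟨(i + 1) * (n * i - i) - (i + 1), fun v => ?_⟩,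
    ⟨spec (Fintype.card (Fin (n * i))) (i + 1), card_spec hm, fun θ => ?_⟩, n * i, ?_, ?_⟩
  · exact φ.connected_iff.2 (connected (sys i G) (by omega))
  · have h1 : ((XG i G).degree (φ v) : ℤ) =
        ((i : ℤ) + 1) * (((n * i : ℕ) : ℤ) - i) - ((i : ℤ) + 1) := by
      have := regular (sys i G) (φ v)
      rw [hcard] at this
      rw [← this]
      congr 1
    have h2 : (TX i n G).degree v = (XG i G).degree (φ v) := by
      rw [SimpleGraph.Iso.degree_eq φ v]
    have h3 : (i + 1) ≤ (i + 1) * (n * i - i) := Nat.le_mul_of_pos_right _ (by omega)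
    rw [h2]
    zify [h3, (by omega : i ≤ n * i)]
    rw [h1]
    push_cast
    ring
  · have h1 : IsEigenvalue (TX i n G) θ ↔ IsEigenvalue (XG i G) θ :=
      ⟨iso_eigenvalue φ, iso_eigenvalue φ.symm⟩
    rw [h1]
    exact isEigenvalue_iff (sys i G) hm θ
  · have h1 := Fintype.card_congr (trE (n * i) (i + 1))
    rw [Fintype.card_fin, Fintype.card_finset_len, hcard] at h1
    exact h1
  · refine Eq.trans ?_ (XG_charpoly G)
    refine (Matrix.charpoly_reindex (trE (n * i) (i + 1)) _).symm.trans ?_
    refine congrArg Matrix.charpoly ?_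
    ext T T'
    rw [Matrix.reindex_apply, Matrix.submatrix_apply, SimpleGraph.adjMatrix_apply,
      SimpleGraph.adjMatrix_apply]
    refine if_congr ?_ rfl rfl
    show (XG i G).Adj (trE (n * i) (i + 1) ((trE (n * i) (i + 1)).symm T))
      (trE (n * i) (i + 1) ((trE (n * i) (i + 1)).symm T')) ↔ _
    rw [Equiv.apply_symm_apply, Equiv.apply_symm_apply]

theorem johnsonCospectral_iso {k n : ℕ} {G H : SimpleGraph (Fin n)} (φ : G ≃g H)
    (h : JohnsonCospectral k n H) : JohnsonCospectral k n G := by
  classical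
  obtain ⟨h1, ⟨d, h2⟩, ⟨s, h3, h4⟩, m, h5, h6⟩ := h
  refine ⟨φ.connected_iff.2 h1, ⟨d, fun v => ?_⟩, ⟨s, h3, fun θ => ?_⟩, m, h5, ?_⟩
  · have h7 := h2 (φ v)
    rw [← h7]
    have h8 := SimpleGraph.Iso.degree_eq φ v
    convert h8.symm using 1
  · rw [← h4]
    exact ⟨iso_eigenvalue φ, iso_eigenvalue φ.symm⟩
  · rw [← h6]
    refine (Matrix.charpoly_reindex φ.toEquiv _).symm.trans ?_
    refine congrArg Matrix.charpoly ?_
    ext u w
    rw [Matrix.reindex_apply, Matrix.submatrix_apply, SimpleGraph.adjMatrix_apply,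
      SimpleGraph.adjMatrix_apply]
    refine if_congr ?_ rfl rfl
    exact φ.symm.map_adj_iff

theorem choose_inj {K m m' : ℕ} (hm : K ≤ m) (hm' : K ≤ m') (hK : 1 ≤ K)
    (h : m.choose K = m'.choose K) : m = m' := by
  have key : ∀ {a c : ℕ}, K ≤ a → a < c → a.choose K < c.choose K := by
    intro a c ha hac
    obtain ⟨K, rfl⟩ : ∃ k, K = k + 1 := ⟨K - 1, by omega⟩
    have h1 : (a + 1).choose (K + 1) = a.choose K + a.choose (K + 1) := Nat.choose_succ_succ a K
    have h2 : 0 < a.choose K := Nat.choose_pos (by omega)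
    have h3 : (a + 1).choose (K + 1) ≤ c.choose (K + 1) := Nat.choose_le_choose _ hac
    omega
  rcases lt_trichotomy m m' with h1 | h1 | h1
  · exact absurd h (key hm h1).ne
  · exact h1
  · exact absurd h (key hm' h1).ne'

theorem card_TX {i s n : ℕ} {G : SimpleGraph (Fin s)} {H : SimpleGraph (Fin n)}
    (h : Nonempty (H ≃g TX i s G)) : n = (s * i).choose (i + 1) := by
  obtain ⟨φ⟩ := h
  have h1 := Fintype.card_congr (φ.toEquiv.trans (trE (s * i) (i + 1)))
  rw [Fintype.card_fin, Fintype.card_finset_len, Fintype.card_fin] at h1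
  exact h1

/-- The graphs of the bundles. -/
def Bundled (i C n : ℕ) (G : SimpleGraph (Fin n)) : Prop :=
  ∃ (n₀ : ℕ) (G₀ : SimpleGraph (Fin n₀)), Nonempty (G ≃g TFJ i C n₀ G₀)

theorem Bundled.cospectral {i C n : ℕ} (hi : 2 ≤ i) {G : SimpleGraph (Fin n)}
    (h : Bundled i C n G) : JohnsonCospectral (i + 1) n G := by
  obtain ⟨n₀, G₀, ⟨φ⟩⟩ := h
  have h1 := johnsonCospectral_TX (i := i) (by omega) (by omega)
    (cones (TT (mm C) (XX C) n₀ G₀) (i + 3))
  have h2 : n = numX i (size (mm C) n₀ + (i + 3)) := by
    have h3 := Fintype.card_congr φ.toEquiv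
    rw [Fintype.card_fin, Fintype.card_fin] at h3
    exact h3
  subst h2
  exact johnsonCospectral_iso φ h1

theorem Bundled.indist {i C : ℕ} {ε : ℝ} (hε : 0 < ε) (hi : 2 ≤ i)
    (hC : ((186624 * E2 (i + 1) ((i + 4) * i) : ℕ) : ℝ) * ((C : ℝ) + 3) ≤
      ((3 : ℝ) ^ (ε / 2)) ^ (C + 3))
    (hC' : 186624 * E2 (i + 1) ((i + 4) * i) ≤ C) {n : ℕ} {G H : SimpleGraph (Fin n)}
    (hG : Bundled i C n G) (hH : Bundled i C n H) (l : ℕ)
    (hl : (l : ℝ) ≤ (n : ℝ) ^ (1 / ((i + 1 : ℕ) : ℝ) - ε)) :
    Indistinguishable l G H := by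
  obtain ⟨n₀, G₀, ⟨φ⟩⟩ := hG
  obtain ⟨n₁, H₀, ⟨ψ⟩⟩ := hH
  have h1 := card_TX (G := cones (TT (mm C) (XX C) n₀ G₀) (i + 3)) ⟨φ⟩
  have h2 := card_TX (G := cones (TT (mm C) (XX C) n₁ H₀) (i + 3)) ⟨ψ⟩
  have hp : ∀ s, s + (i + 1) ≤ (s + (i + 3)) * i := by
    intro s
    have h3 : (s + (i + 3)) * 2 ≤ (s + (i + 3)) * i := Nat.mul_le_mul_left _ hi
    omega
  have h3 : (size (mm C) n₀ + (i + 3)) * i = (size (mm C) n₁ + (i + 3)) * i :=
    choose_inj (by have := hp (size (mm C) n₀); omega) (by have := hp (size (mm C) n₁); omega)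
      (by omega) (h1.symm.trans h2)
  have h4 : size (mm C) n₀ = size (mm C) n₁ := by
    have := Nat.eq_of_mul_eq_mul_right (by omega) h3
    omega
  have h5 : n₀ = n₁ := size_inj (mm_mono C) h4
  subst h5
  refine indist_TFJ G₀ H₀ φ ψ (param2 hε (K := i + 1) (D := (i + 4) * i) (by omega)
    (Nat.mul_pos (by omega) (by omega)) hC hC' (s := size (mm C) n₀)
    (m := (size (mm C) n₀ + (i + 3)) * i) (N := n) rfl ?_ ?_ ?_ ?_ hl)
  · intro h0
    rw [h0]
    exact Nat.mul_le_mul_right _ (by omega)
  · intro h0
    generalize size (mm C) n₀ = s at h0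
    have e1 : (i + 4) * i * s = (s * (i + 4)) * i := by ring
    rw [e1]
    refine Nat.mul_le_mul_right _ ?_
    have e2 : 1 * (i + 3) ≤ s * (i + 3) := Nat.mul_le_mul_right _ h0
    have e3 : s * (i + 4) = s * (i + 3) + s := by ring
    omega
  · rw [h1]
    refine (Nat.choose_le_pow _ _).trans (Nat.pow_le_pow_left ?_ _)
    omega
  · rw [h1]
    have e1 := le_choose ((size (mm C) n₀ + (i + 3)) * i - (i + 1)) (i + 1) (by omega)
    have e2 := hp (size (mm C) n₀)
    rw [Nat.sub_add_cancel (by omega)] at e1
    omega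

/-- **For every fixed `k ≥ 3` and `ε > 0`, graph isomorphism is as hard as for a class of connected
regular graphs with `k + 1` distinct eigenvalues that are cospectral with Johnson graphs `J(m,k)`,
any two of which with the same number `n` of vertices are not distinguished by the Weisfeiler-Leman
method, by invertible maps, by the polynomial calculus and by sums of squares of dimension
`n ^ (1 / k - ε)`.** -/
theorem result (k : ℕ) (hk : 3 ≤ k) (ε : ℝ) (hε : 0 < ε) :
    ∃ 𝒞 : (n : ℕ) → SimpleGraph (Fin n) → Prop,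
      -- `𝒞` is closed under isomorphism
      (∀ (n m : ℕ) (G : SimpleGraph (Fin n)) (H : SimpleGraph (Fin m)),
        𝒞 n G → Nonempty (G ≃g H) → 𝒞 m H) ∧
      -- its members have the spectrum of a Johnson graph
      (∀ (n : ℕ) (G : SimpleGraph (Fin n)), 𝒞 n G → JohnsonCospectral k n G) ∧
      -- members with the same number of vertices are not distinguished
      (∀ (n : ℕ) (G H : SimpleGraph (Fin n)), 𝒞 n G → 𝒞 n H →
        ∀ l : ℕ, (l : ℝ) ≤ (n : ℝ) ^ (1 / (k : ℝ) - ε) → Indistinguishable l G H) ∧
      -- graph isomorphism on `𝒞` is as hard as in general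
      AsHardOn 𝒞 := by
  obtain ⟨i, rfl⟩ : ∃ i, k = i + 1 := ⟨k - 1, by omega⟩
  have hi : 2 ≤ i := by omega
  obtain ⟨C, hC, hC'⟩ := exists_C' ((3 : ℝ) ^ (ε / 2))
    (Real.one_lt_rpow (by norm_num) (half_pos hε)) (186624 * E2 (i + 1) ((i + 4) * i))
  refine ⟨Bundled i C, ?_, fun n G h => h.cospectral hi,
    fun n G H hG hH l hl => hG.indist hε hi hC hC' hH l hl, ?_⟩
  · rintro n m G H ⟨n₀, G₀, ⟨φ⟩⟩ ⟨ψ⟩
    exact ⟨n₀, G₀, ⟨ψ.symm.trans φ⟩⟩
  · exact FE677.complete (N := fun n _ => numX i (size (mm C) n + (i + 3))) (poly_redFJ i C)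
      (redFJ_adjMatrix i C) (fun n n' G H => TFJ_iff hi C n n' G H) (Bundled i C)
      fun n G => ⟨n, G, ⟨RelIso.refl _⟩⟩

end Pool.Agent.Results.MP_128e7d_lc.JohnsonSpectrum
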